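import Pool.Agent.H948.HS.Stm

/-!
# Rotation invariance of the step law
-/

set_option autoImplicit false

namespace Pool.Agent.H331.HS

open MeasureTheory ProbabilityTheory Set Filter Metric Pool.Agent.H948.HS
open scoped ENNReal NNReal Topology RealInnerProductSpace Pointwise

variable {m : ℕ}

theorem measurable_rot (R : E m ≃ₗᵢ[ℝ] E m) : Measurable (rot R) := by
  unfold rot
  exact (R.continuous.measurable.comp measurable_subtype_coe).subtype_mk

theorem toSphere_rot (R : E m ≃ₗᵢ[ℝ] E m) {s : Set (Sp m)} (hs : MeasurableSet s) :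
    (volume : Measure (E m)).toSphere (rot R ⁻¹' s) = (volume : Measure (E m)).toSphere s := by
  rw [Measure.toSphere_apply' _ (measurable_rot R hs), Measure.toSphere_apply' _ hs]
  congr 1
  have hm : MeasurePreserving R (volume : Measure (E m)) volume := R.measurePreserving
  have e : Ioo (0 : ℝ) 1 • ((↑) '' (rot R ⁻¹' s) : Set (E m)) =
      R ⁻¹' (Ioo (0 : ℝ) 1 • ((↑) '' s : Set (E m))) := by
    ext y
    constructor
    · rintro ⟨r, hr, _, ⟨x, hx, rfl⟩, rfl⟩
      refine ⟨r, hr, _, ⟨rot R x, hx, rfl⟩, ?_⟩
      change r • R (x : E m) = R (r • (x : E m))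
      rw [map_smul]
    · rintro ⟨r, hr, _, ⟨x, hx, rfl⟩, hy⟩
      change r • (x : E m) = R y at hy
      refine ⟨r, hr, _, ⟨rot R.symm x, ?_, rfl⟩, ?_⟩
      · have : rot R (rot R.symm x) = x := by
          apply Subtype.ext
          change R (R.symm (x : E m)) = x
          rw [LinearIsometryEquiv.apply_symm_apply]
        change rot R (rot R.symm x) ∈ s
        rw [this]
        exact hx
      · change r • R.symm (x : E m) = y
        rw [← map_smul, hy, LinearIsometryEquiv.symm_apply_apply]
  rw [e]
  exact hm.measure_preimage_emb R.toHomeomorph.measurableEmbedding _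

theorem map_sig (R : E m ≃ₗᵢ[ℝ] E m) : (sig m).map (rot R) = sig m := by
  ext s hs
  rw [Measure.map_apply (measurable_rot R) hs]
  unfold sig
  rw [Measure.smul_apply, Measure.smul_apply, toSphere_rot R hs]

theorem s_rot : S_ROT := by
  intro m R A hA
  have h : (Pm m).map (rotO R) = Pm m := by
    unfold Pm
    have h1 := Measure.infinitePi_map_pi (μ := fun _ : ℕ => sig m) (f := fun _ : ℕ => rot R)
      (fun _ => measurable_rot R)
    simp only [map_sig R] at h1
    exact h1
  have hm : Measurable (rotO R) :=
    measurable_pi_iff.2 fun i => (measurable_rot R).comp (measurable_pi_apply i)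
  unfold Measure.real
  congr 1
  conv_rhs => rw [← h, Measure.map_apply hm hA]
  rfl

end Pool.Agent.H331.HS
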